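import Mathlib

/-!
A countable space (`ω` together with one free ultrafilter) is primarily Lindelöf and monotonically
Sokolov, but it is not an `ℝ`-quotient image of a closed subset of `(L_Γ)^ℕ`.
-/

namespace Pool.Agent.Results.MP_e3da0c_gt.NotRQuotient

open Set Topology Filter

universe u v

/-- The one-point Lindelöfication `L_Γ = Γ ∪ {∞}` of the discrete set `Γ`; `none` is the point
`∞`. -/
def LL (Γ : Type u) : Type u := Option Γ

/-- The points of `Γ` are isolated, the neighbourhoods of `∞` are the sets with countable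
complement. -/
instance (Γ : Type u) : TopologicalSpace (LL Γ) where
  IsOpen s := (none : Option Γ) ∈ s → {γ : Γ | (some γ : Option Γ) ∉ s}.Countable
  isOpen_univ _ := by
    convert Set.countable_empty
    ext γ
    exact ⟨fun h => h (mem_univ _), fun h => absurd h (notMem_empty _)⟩
  isOpen_inter s t hs ht h := by
    refine ((hs h.1).union (ht h.2)).mono fun γ hγ => ?_
    by_contra hcon
    rw [mem_union, not_or] at hcon
    exact hγ ⟨not_not.1 hcon.1, not_not.1 hcon.2⟩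
  isOpen_sUnion S hS := by
    rintro ⟨t, ht, h⟩
    exact (hS t ht h).mono fun γ hγ hγt => hγ ⟨t, ht, hγt⟩

/-- Continuous images of closed subsets of `(L_Γ)^ℕ`. -/
def PrimarilyLindelof (T : Type u) [TopologicalSpace T] : Prop :=
  ∃ (Γ : Type u) (F : Set (ℕ → LL Γ)), IsClosed F ∧ ∃ f : F → T, Continuous f ∧
    Function.Surjective f

/-- The countable families of nonempty closed subsets of `T`. -/
def CountableClosed (T : Type u) [TopologicalSpace T] : Set (Set (Set T)) :=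
  {𝒜 | 𝒜.Countable ∧ ∀ F ∈ 𝒜, F.Nonempty ∧ IsClosed F}

/-- Monotonically Sokolov spaces. -/
def MonotonicallySokolov (T : Type u) [TopologicalSpace T] : Prop :=
  ∃ (r : Set (Set T) → T → T) (N : Set (Set T) → Set (Set T)),
    (∀ 𝒜 ∈ CountableClosed T,
      Continuous (r 𝒜) ∧ (∀ x, r 𝒜 (r 𝒜 x) = r 𝒜 x) ∧ (∀ F ∈ 𝒜, r 𝒜 '' F ⊆ F) ∧
      (N 𝒜).Countable ∧
      ∀ U : Set T, IsOpen U → ∀ x ∈ U ∩ range (r 𝒜), ∃ M ∈ N 𝒜, x ∈ M ∧ M ⊆ U) ∧
    (∀ 𝒜 ∈ CountableClosed T, ∀ ℬ ∈ CountableClosed T, 𝒜 ⊆ ℬ → N 𝒜 ⊆ N ℬ) ∧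
    ∀ 𝒜 : ℕ → Set (Set T), (∀ n, 𝒜 n ∈ CountableClosed T) → Monotone 𝒜 →
      N (⋃ n, 𝒜 n) = ⋃ n, N (𝒜 n)

/-- `ℝ`-quotient maps. -/
def RQuotient {X : Type u} {Y : Type v} [TopologicalSpace X] [TopologicalSpace Y] (f : X → Y) :
    Prop :=
  Continuous f ∧ Function.Surjective f ∧ ∀ g : Y → ℝ, Continuous (g ∘ f) → Continuous g

/-! ### Neighbourhoods in `(L_Γ)^ℕ` -/

section nhds

variable {Γ : Type u}

/-- Basic neighbourhoods. -/
def W (z : ℕ → LL Γ) (n : ℕ) (C : Set Γ) : Set (ℕ → LL Γ) :=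
  {w | ∀ i < n, w i = z i ∨ (z i = (none : Option Γ) ∧ ∀ γ ∈ C, w i ≠ (some γ : Option Γ))}

lemma W_mono {z : ℕ → LL Γ} {n m : ℕ} {C D : Set Γ} (hnm : n ≤ m) (hCD : C ⊆ D) :
    W z m D ⊆ W z n C := by
  intro w hw i hi
  rcases hw i (hi.trans_le hnm) with h | ⟨h1, h2⟩
  · exact Or.inl h
  · exact Or.inr ⟨h1, fun γ hγ => h2 γ (hCD hγ)⟩

lemma isOpen_W (z : ℕ → LL Γ) (n : ℕ) {C : Set Γ} (hC : C.Countable) : IsOpen (W z n C) := by
  have h1 : W z n C = ⋂ i ∈ Set.Iio n, (fun w : ℕ → LL Γ => w i) ⁻¹'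
      {a : LL Γ | a = z i ∨ (z i = (none : Option Γ) ∧ ∀ γ ∈ C, a ≠ (some γ : Option Γ))} := by
    ext w
    simp only [mem_iInter]
    exact Iff.rfl
  rw [h1]
  refine (Set.finite_Iio n).isOpen_biInter fun i _ => IsOpen.preimage (continuous_apply i) ?_
  intro hnone
  have hzi : z i = (none : Option Γ) := by
    rcases hnone with h | h
    · exact h.symm
    · exact h.1
  refine hC.mono fun γ hγ => ?_
  by_contra hcon
  refine hγ (Or.inr ⟨hzi, fun δ hδ h => hcon ?_⟩)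
  have h2 : γ = δ := Option.some.inj h
  rw [h2]
  exact hδ

lemma mem_W (z : ℕ → LL Γ) (n : ℕ) (C : Set Γ) : z ∈ W z n C := fun _ _ => Or.inl rfl

lemma exists_W_subset {z : ℕ → LL Γ} {U : Set (ℕ → LL Γ)} (hU : IsOpen U) (hz : z ∈ U) :
    ∃ (n : ℕ) (C : Set Γ), C.Countable ∧ W z n C ⊆ U := by
  rw [isOpen_pi_iff] at hU
  obtain ⟨I, u, hu, hI⟩ := hU z hz
  refine ⟨I.sup id + 1, ⋃ i ∈ I, {γ | z i = (none : Option Γ) ∧ (some γ : Option Γ) ∉ u i}, ?_, ?_⟩
  · refine I.countable_toSet.biUnion fun i hi => ?_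
    by_cases h : z i = (none : Option Γ)
    · have h1 := (hu i hi).1 (by rw [← h]; exact (hu i hi).2)
      exact h1.mono fun γ hγ => hγ.2
    · convert Set.countable_empty
      ext γ
      exact ⟨fun h' => absurd h'.1 h, fun h' => absurd h' (notMem_empty _)⟩
  · intro w hw
    refine hI fun i hi => ?_
    have hin : i < I.sup id + 1 := Nat.lt_succ_of_le (Finset.le_sup (f := id) hi)
    rcases hw i hin with h | ⟨h1, h2⟩
    · rw [h]
      exact (hu i hi).2
    · rcases hwi : w i with _ | γ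
      · have := (hu i hi).2
        rw [h1] at this
        exact this
      · by_contra hcon
        exact h2 γ (mem_iUnion₂.2 ⟨i, hi, h1, hcon⟩) hwi

end nhds

/-! ### The space -/

/-- The subspace `{p} ∪ ω` of `βω`. -/
abbrev T (p : Ultrafilter ℕ) : Type := {q : Ultrafilter ℕ // q = p ∨ ∃ n : ℕ, q = pure n}

/-- The isolated points. -/
def pt (p : Ultrafilter ℕ) (n : ℕ) : T p := ⟨pure n, Or.inr ⟨n, rfl⟩⟩

/-- The limit point. -/
def lim (p : Ultrafilter ℕ) : T p := ⟨p, Or.inl rfl⟩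

lemma eq_lim_or (p : Ultrafilter ℕ) (x : T p) : x = lim p ∨ ∃ n, x = pt p n := by
  rcases x.2 with h | ⟨n, h⟩
  · exact Or.inl (Subtype.ext h)
  · exact Or.inr ⟨n, Subtype.ext h⟩

instance (p : Ultrafilter ℕ) : Countable (T p) := by
  have h1 : Function.Surjective fun o : Option ℕ => (Option.elim o (lim p) (pt p) : T p) := by
    intro x
    rcases eq_lim_or p x with rfl | ⟨n, rfl⟩
    · exact ⟨none, rfl⟩
    · exact ⟨some n, rfl⟩
  exact h1.countable

/-- The basic open sets of `βω`. -/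
lemma isOpen_basic (p : Ultrafilter ℕ) (U : Set ℕ) : IsOpen {x : T p | U ∈ x.1} :=
  (ultrafilter_isOpen_basic U).preimage continuous_subtype_val

lemma pt_mem_iff (p : Ultrafilter ℕ) (U : Set ℕ) (n : ℕ) :
    pt p n ∈ {x : T p | U ∈ x.1} ↔ n ∈ U := Iff.rfl

variable {p : Ultrafilter ℕ}

lemma pt_ne_lim (hp : ∀ n : ℕ, p ≠ pure n) (n : ℕ) : pt p n ≠ lim p := fun h =>
  hp n (congrArg Subtype.val h).symm

lemma compl_singleton_mem (hp : ∀ n : ℕ, p ≠ pure n) (n : ℕ) : ({n}ᶜ : Set ℕ) ∈ p := by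
  rw [Ultrafilter.compl_mem_iff_notMem]
  intro h
  exact hp n (Ultrafilter.eq_pure_of_finite_mem (Set.finite_singleton n) h |>.elim
    fun x hx => by rw [hx.2, show x = n from hx.1])

lemma Ici_mem (hp : ∀ n : ℕ, p ≠ pure n) (m : ℕ) : {k : ℕ | m ≤ k} ∈ p := by
  have h1 : {k : ℕ | m ≤ k} = ⋂ i ∈ Set.Iio m, ({i}ᶜ : Set ℕ) := by
    ext k
    simp only [mem_iInter]
    constructor
    · intro hk i hi hki
      have hk' : m ≤ k := hk
      have hki' : k = i := hki
      have hi' : i < m := hi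
      omega
    · intro h
      by_contra hcon
      have hcon' : k < m := not_le.1 hcon
      exact h k hcon' rfl
  rw [h1]
  exact (Filter.biInter_mem (Set.finite_Iio m)).2 fun i _ => compl_singleton_mem hp i

lemma not_isOpen_lim (hp : ∀ n : ℕ, p ≠ pure n) : ¬ IsOpen ({lim p} : Set (T p)) := by
  intro h
  obtain ⟨O, hO, hOl⟩ := isOpen_induced_iff.1 h
  have hpO : p ∈ O := by
    have : lim p ∈ Subtype.val ⁻¹' O := by rw [hOl]; rfl
    exact this
  obtain ⟨B, ⟨s, rfl⟩, hpB, hBO⟩ :=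
    ultrafilterBasis_is_basis.exists_subset_of_mem_open hpO hO
  obtain ⟨n, hn⟩ := p.nonempty_of_mem hpB
  have h1 : pt p n ∈ Subtype.val ⁻¹' O := hBO (show s ∈ (pure n : Ultrafilter ℕ) from hn)
  rw [hOl] at h1
  exact pt_ne_lim hp n h1

lemma primarilyLindelof (p : Ultrafilter ℕ) : PrimarilyLindelof (T p) := by
  have : Nonempty (T p) := ⟨lim p⟩
  obtain ⟨e, he⟩ := exists_surjective_nat (T p)
  have hd : DiscreteTopology (LL ℕ) := by
    refine discreteTopology_iff_forall_isOpen.2 fun s _ => ?_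
    exact Set.to_countable _
  let g : LL ℕ → T p := fun a => e (Option.elim (show Option ℕ from a) 0 id)
  have hg : Continuous g := continuous_of_discreteTopology
  refine ⟨ℕ, univ, isClosed_univ, fun x => g (x.1 0),
    hg.comp ((continuous_apply 0).comp continuous_subtype_val), fun y => ?_⟩
  obtain ⟨n, rfl⟩ := he y
  exact ⟨⟨fun _ => (some n : Option ℕ), mem_univ _⟩, rfl⟩

lemma monotonicallySokolov (p : Ultrafilter ℕ) : MonotonicallySokolov (T p) := by
  refine ⟨fun _ => id, fun _ => range fun x : T p => {x}, ?_, ?_, ?_⟩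
  · intro 𝒜 _
    refine ⟨continuous_id, fun _ => rfl, fun F _ => (image_id F).subset, countable_range _, ?_⟩
    rintro U _ x ⟨hx, -⟩
    exact ⟨{x}, ⟨x, rfl⟩, rfl, singleton_subset_iff.2 hx⟩
  · intro _ _ _ _ _
    exact Subset.rfl
  · intro 𝒜 _ _
    exact (iUnion_const _).symm

/-- Two disjoint sets meeting every member of a decreasing sequence of infinite sets. -/
lemma exists_split (B : ℕ → Set ℕ) (hB : ∀ n m, ∃ k ∈ B n, m < k) :
    ∃ X Y : Set ℕ, Disjoint X Y ∧ ∀ n, (X ∩ B n).Nonempty ∧ (Y ∩ B n).Nonempty := by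
  choose g hg1 hg2 using hB
  obtain ⟨a, ha, ha2⟩ : ∃ a : ℕ → ℕ, StrictMono a ∧ ∀ j, a j ∈ B (j / 2) := by
    let a : ℕ → ℕ := fun j => Nat.rec (motive := fun _ => ℕ) (g 0 0)
      (fun j x => g ((j + 1) / 2) x) j
    refine ⟨a, strictMono_nat_of_lt_succ fun j => hg2 _ _, fun j => ?_⟩
    rcases j with _ | j
    · exact hg1 _ _
    · exact hg1 _ _
  refine ⟨range fun n => a (2 * n), range fun n => a (2 * n + 1), ?_, fun n => ⟨?_, ?_⟩⟩
  · rw [Set.disjoint_left]
    rintro _ ⟨n, rfl⟩ ⟨m, hm⟩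
    have h1 : a (2 * m + 1) = a (2 * n) := hm
    have h2 := ha.injective h1
    omega
  · refine ⟨a (2 * n), ⟨n, rfl⟩, ?_⟩
    have := ha2 (2 * n)
    rwa [show 2 * n / 2 = n by omega] at this
  · refine ⟨a (2 * n + 1), ⟨n, rfl⟩, ?_⟩
    have := ha2 (2 * n + 1)
    rwa [show (2 * n + 1) / 2 = n by omega] at this

lemma not_rQuotient (hp : ∀ n : ℕ, p ≠ pure n) {Γ : Type v} (F : Set (ℕ → LL Γ)) (f : F → T p) :
    ¬ RQuotient f := by
  rintro ⟨hf, hsurj, hq⟩
  -- a point over the limit point in the closure of the preimages of the isolated points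
  have hz : ∃ z : F, f z = lim p ∧ ∀ O : Set F, IsOpen O → z ∈ O → ∃ w ∈ O, f w ≠ lim p := by
    by_contra hcon
    push Not at hcon
    have hopen : IsOpen (f ⁻¹' {lim p}) := by
      rw [isOpen_iff_forall_mem_open]
      intro z hz
      obtain ⟨O, hO, hzO, hO'⟩ := hcon z hz
      exact ⟨O, fun w hw => hO' w hw, hO, hzO⟩
    have hclosed : IsClosed (f ⁻¹' {lim p}) := isClosed_singleton.preimage hf
    have hg : Continuous ((indicator {lim p} fun _ => (1 : ℝ)) ∘ f) := by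
      have h1 : (indicator {lim p} fun _ => (1 : ℝ)) ∘ f =
          indicator (f ⁻¹' {lim p}) fun _ => (1 : ℝ) := by
        ext x
        rfl
      rw [h1]
      have hcl : IsClopen (f ⁻¹' {lim p}) := ⟨hclosed, hopen⟩
      refine Continuous.indicator (fun a ha => ?_) continuous_const
      rw [hcl.frontier_eq] at ha
      exact absurd ha (notMem_empty _)
    have h2 := hq _ hg
    refine not_isOpen_lim hp ?_
    have h3 : ({lim p} : Set (T p)) = (indicator {lim p} fun _ => (1 : ℝ)) ⁻¹' (Ioi 0) := by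
      ext x
      constructor
      · intro hx
        show (0 : ℝ) < indicator {lim p} (fun _ => (1 : ℝ)) x
        rw [indicator_of_mem hx]
        exact one_pos
      · intro hx
        by_contra hx'
        have hx2 : (0 : ℝ) < indicator {lim p} (fun _ => (1 : ℝ)) x := hx
        rw [indicator_of_notMem hx'] at hx2
        exact lt_irrefl _ hx2
    rw [h3]
    exact isOpen_Ioi.preimage h2
  obtain ⟨z, hzl, hz⟩ := hz
  -- the traces of the neighbourhoods
  let B : ℕ → Set Γ → Set ℕ := fun n C => {k | ∃ w : F, w.1 ∈ W z.1 n C ∧ f w = pt p k}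
  have hBmono : ∀ {n m : ℕ} {C D : Set Γ}, n ≤ m → C ⊆ D → B m D ⊆ B n C := by
    rintro n m C D hnm hCD k ⟨w, hw, hwk⟩
    exact ⟨w, W_mono hnm hCD hw, hwk⟩
  have hchoice : ∀ n k : ℕ, ∃ C : Set Γ, C.Countable ∧
      ((∃ D : Set Γ, D.Countable ∧ k ∉ B n D) → k ∉ B n C) := by
    intro n k
    by_cases h : ∃ D : Set Γ, D.Countable ∧ k ∉ B n D
    · obtain ⟨D, hD, hk⟩ := h
      exact ⟨D, hD, fun _ => hk⟩
    · exact ⟨∅, Set.countable_empty, fun h' => absurd h' h⟩
  choose C hC1 hC2 using hchoice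
  let S : Set Γ := ⋃ n, ⋃ k, C n k
  have hS : S.Countable := countable_iUnion fun n => countable_iUnion fun k => hC1 n k
  have hSB : ∀ n (D : Set Γ), D.Countable → B n S ⊆ B n D := by
    intro n D hD k hk
    by_contra hcon
    refine hC2 n k ⟨D, hD, hcon⟩ (hBmono le_rfl ?_ hk)
    exact fun γ hγ => mem_iUnion.2 ⟨n, mem_iUnion.2 ⟨k, hγ⟩⟩
  have hne : ∀ n, (B n S).Nonempty := by
    intro n
    obtain ⟨w, hw, hwl⟩ := hz _ ((isOpen_W z.1 n hS).preimage continuous_subtype_val)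
      (mem_W z.1 n S)
    rcases eq_lim_or p (f w) with h | ⟨k, h⟩
    · exact absurd h hwl
    · exact ⟨k, w, hw, h⟩
  have hU : ∀ U ∈ p, ∃ n, B n S ⊆ U := by
    intro U hU
    have hO : IsOpen (f ⁻¹' {x : T p | U ∈ x.1}) := (isOpen_basic p U).preimage hf
    obtain ⟨O, hO1, hO2⟩ := isOpen_induced_iff.1 hO
    have hzO : z.1 ∈ O := by
      have h1 : z ∈ Subtype.val ⁻¹' O := by
        rw [hO2]
        show f z ∈ {x : T p | U ∈ x.1}
        rw [hzl]
        exact hU
      exact h1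
    obtain ⟨n, D, hD, hWO⟩ := exists_W_subset hO1 hzO
    refine ⟨n, fun k hk => ?_⟩
    obtain ⟨w, hw, hwk⟩ := hSB n D hD hk
    have h1 : w ∈ Subtype.val ⁻¹' O := hWO hw
    rw [hO2] at h1
    have h2 : f w ∈ {x : T p | U ∈ x.1} := h1
    rw [hwk] at h2
    exact h2
  have hinf : ∀ n m, ∃ k ∈ B n S, m < k := by
    intro n m
    obtain ⟨n', hn'⟩ := hU _ (Ici_mem hp (m + 1))
    obtain ⟨k, hk⟩ := hne (max n n')
    refine ⟨k, hBmono (le_max_left _ _) Subset.rfl hk, ?_⟩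
    exact Nat.lt_of_succ_le (hn' (hBmono (le_max_right _ _) Subset.rfl hk))
  obtain ⟨X, Y, hXY, hmeet⟩ := exists_split (fun n => B n S) hinf
  rcases Ultrafilter.mem_or_compl_mem p X with h | h
  · obtain ⟨n, hn⟩ := hU X h
    obtain ⟨k, hkY, hk⟩ := (hmeet n).2
    exact Set.disjoint_left.1 hXY (hn hk) hkY
  · obtain ⟨n, hn⟩ := hU _ h
    obtain ⟨k, hkX, hk⟩ := (hmeet n).1
    exact hn hk hkX

/-- **There is a Tychonoff (even countable) space which is primarily Lindelöf and monotonically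
Sokolov, but which is not an `ℝ`-quotient image of a closed subset of `(L_Γ)^ℕ`, for any set
`Γ`.** -/
theorem result : ∃ (T : Type) (_ : TopologicalSpace T), T35Space T ∧ Countable T ∧
    PrimarilyLindelof T ∧ MonotonicallySokolov T ∧
    ∀ (Γ : Type v) (F : Set (ℕ → LL Γ)), IsClosed F → ¬ ∃ f : F → T, RQuotient f := by
  let p : Ultrafilter ℕ := hyperfilter ℕ
  have hp : ∀ n : ℕ, p ≠ pure n := by
    intro n h
    have h1 : ({n} : Set ℕ) ∈ p := by
      rw [h]
      exact mem_pure.2 rfl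
    exact (notMem_hyperfilter_of_finite (Set.finite_singleton n)) h1
  exact ⟨T p, inferInstance, inferInstance, inferInstance, primarilyLindelof p,
    monotonicallySokolov p, fun Γ F _ ⟨f, hf⟩ => not_rQuotient hp F f hf⟩

end Pool.Agent.Results.MP_e3da0c_gt.NotRQuotient
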